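import Pool.Agent.helper56.CY.Spec

set_option autoImplicit false

namespace Pool.Agent.CY
open Finset CT

theorem SIX_other {V : Type} [DecidableEq V] {S : Finset V} {e : V × Fin 4 → V × Fin 4}
    {c : V × Fin 4 → ℕ} {m : ℕ} (hc : EvCol S e c) {u : V} (hu : u ∈ S) {i : Fin 4} (hi : c (u, i) = m) :
    ∃ j, i ≠ j ∧ c (u, j) = m := by
  have h1 := hc.2 u hu m
  set T := (univ : Finset (Fin 4)).filter fun i => c (u, i) = m with hT
  have h2 : i ∈ T := by
    rw [hT, mem_filter]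
    exact ⟨mem_univ _, hi⟩
  have h3 : 1 < T.card := by
    have h4 : 0 < T.card := card_pos.mpr ⟨i, h2⟩
    rcases h1 with ⟨r, hr⟩
    omega
  obtain ⟨j, hj, hne⟩ := exists_mem_ne h3 i
  rw [hT, mem_filter] at hj
  exact ⟨j, hne.symm, hj.2⟩

theorem SIX : SIX_stmt := by
  intro V _ S e c m hA hS hc ⟨d, hd, hdm⟩
  obtain ⟨u, a⟩ := d
  have hmem : ∀ (x : V) (i : Fin 4), (x, i) ∈ dts S ↔ x ∈ S := by
    intro x i
    unfold dts
    rw [mem_product]
    simp
  have hu : u ∈ S := (hmem u a).mp hd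
  have hact : ∀ (x : V) (i : Fin 4), x ∈ S → (e (x, i)).1 ∈ S := by
    intro x i hx
    have h1 : e (x, i) ≠ (x, i) := (hA.2 _).mpr ((hmem x i).mpr hx)
    have h2 : e (e (x, i)) ≠ e (x, i) := by
      rw [hA.1]
      exact h1.symm
    have h3 := (hA.2 _).mp h2
    exact (hmem _ (e (x, i)).2).mp h3
  obtain ⟨b, hab, hb⟩ := SIX_other hc hu hdm
  obtain ⟨v, p, hvp⟩ : ∃ v p, e (u, a) = (v, p) := ⟨(e (u, a)).1, (e (u, a)).2, rfl⟩
  obtain ⟨w, q, hwq⟩ : ∃ w q, e (u, b) = (w, q) := ⟨(e (u, b)).1, (e (u, b)).2, rfl⟩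
  have hv : v ∈ S := by
    have := hact u a hu
    rw [hvp] at this
    exact this
  have hw : w ∈ S := by
    have := hact u b hu
    rw [hwq] at this
    exact this
  have huv : u ≠ v := by
    have := hS.1 u hu a
    rw [hvp] at this
    exact fun h => this h.symm
  have huw : u ≠ w := by
    have := hS.1 u hu b
    rw [hwq] at this
    exact fun h => this h.symm
  have hvw : v ≠ w := by
    intro h
    apply hab
    apply hS.2 u hu a b
    rw [hvp, hwq]
    exact h
  have hcp : c (v, p) = m := by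
    rw [← hvp, hc.1, hdm]
  have hcq : c (w, q) = m := by
    rw [← hwq, hc.1, hb]
  obtain ⟨p', hpp, hp'⟩ := SIX_other hc hv hcp
  obtain ⟨q', hqq, hq'⟩ := SIX_other hc hw hcq
  refine ⟨⟨u, v, w, a, b, p, p', q, q', hu, hv, hw, huv, huw, hvw, hab, hpp, hqq, hvp, hwq, hdm, hb, hcp, hp',
    hcq, hq'⟩, ?_⟩
  have hsub : ({(u, a), (u, b), (v, p), (v, p'), (w, q), (w, q')} : Finset (V × Fin 4)) ⊆
      (dts S).filter fun d => c d = m := by
    intro x hx
    simp only [mem_insert, mem_singleton] at hx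
    rw [mem_filter]
    rcases hx with h | h | h | h | h | h <;> rw [h]
    · exact ⟨(hmem _ _).mpr hu, hdm⟩
    · exact ⟨(hmem _ _).mpr hu, hb⟩
    · exact ⟨(hmem _ _).mpr hv, hcp⟩
    · exact ⟨(hmem _ _).mpr hv, hp'⟩
    · exact ⟨(hmem _ _).mpr hw, hcq⟩
    · exact ⟨(hmem _ _).mpr hw, hq'⟩
  have hcard : ({(u, a), (u, b), (v, p), (v, p'), (w, q), (w, q')} : Finset (V × Fin 4)).card = 6 := by
    rw [card_insert_of_notMem, card_insert_of_notMem, card_insert_of_notMem, card_insert_of_notMem,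
      card_insert_of_notMem, card_singleton]
    · simp [hqq]
    · simp [hvw]
    · simp [hvw, hpp]
    · simp [huv, huw]
    · simp [huv, huw, hab]
  rw [← hcard]
  exact card_le_card hsub

end Pool.Agent.CY
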